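import Pool.Agent.N345.Mol.Pair

set_option autoImplicit false
set_option linter.unusedSectionVars false

/-!
# Many orthogonal latin squares which almost have common groups of translations
-/

namespace Pool.Agent.N345.Mol

open Finset
open scoped Classical Pointwise

/-- Mann's bound for automorphisms without common values -/
theorem mann_bound {H : Type*} [Group H] [Finite H] {k : ℕ} (β : Fin k → H →* H)
    (hβ : ∀ i, Function.Injective (β i)) (hfix : ∀ i j, i ≠ j → ∀ z, β i z = β j z → z = 1)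
    (p : ℕ) (hp : p.Prime) (hd : p ∣ Nat.card H) : k < p ^ (Nat.card H).factorization p := by
  have : Fact p.Prime := ⟨hp⟩
  have := Fintype.ofFinite H
  obtain ⟨y, hy⟩ := exists_prime_orderOf_dvd_card' p hd
  have hy1 : y ≠ 1 := by
    rintro rfl
    rw [orderOf_one] at hy
    exact hp.one_lt.ne hy
  let Q : Sylow p H := default
  have hQ : Nat.card Q = p ^ (Nat.card H).factorization p := Sylow.card_eq_multiplicity Q
  have hconj : ∀ i, ∃ x : H, x * β i y * x⁻¹ ∈ (Q : Subgroup H) := by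
    intro i
    have h1 : IsPGroup p (Subgroup.zpowers (β i y)) := by
      refine IsPGroup.of_card (n := 1) ?_
      rw [Nat.card_zpowers, orderOf_injective (β i) (hβ i), hy, pow_one]
    obtain ⟨R, hR⟩ := h1.exists_le_sylow
    obtain ⟨x, hx⟩ := MulAction.exists_smul_eq H R Q
    refine ⟨x, ?_⟩
    rw [← hx]
    have h2 : β i y ∈ (R : Subgroup H) := hR (Subgroup.mem_zpowers _)
    have h3 := Subgroup.smul_mem_pointwise_smul _ (MulAut.conj x) _ h2
    have h4 : x * β i y * x⁻¹ ∈ (MulAut.conj x • (R : Subgroup H)) := by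
      simpa [MulAut.smul_def, MulAut.conj_apply] using h3
    exact h4
  choose x hx using hconj
  by_contra hcon
  push Not at hcon
  have hne : ∀ i, x i * β i y * (x i)⁻¹ ≠ 1 := by
    intro i h
    have h1 : β i y = 1 := by
      have := mul_inv_eq_one.1 h
      exact mul_eq_left.1 this
    exact hy1 ((injective_iff_map_eq_one (β i)).1 (hβ i) y h1)
  have hninj : ¬ Function.Injective (fun i => (⟨_, hx i⟩ : (Q : Subgroup H))) := by
    intro hinj
    have h1 : (univ.image (fun i => (⟨_, hx i⟩ : (Q : Subgroup H)))) ⊆ univ.erase 1 := by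
      intro z hz
      obtain ⟨i, -, rfl⟩ := mem_image.1 hz
      refine mem_erase.2 ⟨fun h => hne i (congrArg Subtype.val h), mem_univ _⟩
    have h2 := card_le_card h1
    rw [card_image_of_injective _ hinj, card_univ, Fintype.card_fin, card_erase_of_mem (mem_univ _),
      card_univ, ← Nat.card_eq_fintype_card] at h2
    have h3 : Nat.card (Q : Subgroup H) = p ^ (Nat.card H).factorization p := hQ
    rw [h3] at h2
    have h4 : 0 < p ^ (Nat.card H).factorization p := pow_pos hp.pos _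
    omega
  rw [Function.not_injective_iff] at hninj
  obtain ⟨i, j, hij, hne'⟩ := hninj
  have e : x i * β i y * (x i)⁻¹ = x j * β j y * (x j)⁻¹ := congrArg Subtype.val hij
  -- `β j y = X β i y X⁻¹`
  set X := (x j)⁻¹ * x i with hX
  have e1 : β j y = X * β i y * X⁻¹ := by
    rw [hX, mul_inv_rev, inv_inv]
    calc β j y = (x j)⁻¹ * (x j * β j y * (x j)⁻¹) * x j := by group
      _ = (x j)⁻¹ * (x i * β i y * (x i)⁻¹) * x j := by rw [e]
      _ = _ := by group
  have hF : Function.Injective (fun g => (β i g)⁻¹ * β j g) := by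
    intro g g' h
    have h' : (β i g)⁻¹ * β j g = (β i g')⁻¹ * β j g' := h
    have h1 : β i (g' * g⁻¹) = β j (g' * g⁻¹) := by
      rw [map_mul, map_mul, map_inv, map_inv]
      calc β i g' * (β i g)⁻¹ = β i g' * ((β i g)⁻¹ * β j g) * (β j g)⁻¹ := by group
        _ = β i g' * ((β i g')⁻¹ * β j g') * (β j g)⁻¹ := by rw [h']
        _ = _ := by group
    have h2 := hfix i j hne' _ h1
    exact (mul_inv_eq_one.1 h2).symm
  obtain ⟨g, hg⟩ := (Finite.injective_iff_surjective.1 hF) X⁻¹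
  have hg' : (β i g)⁻¹ * β j g = X⁻¹ := hg
  have e2 : β j g = β i g * X⁻¹ := by rw [← hg']; group
  have e3 : β i (g * y * g⁻¹) = β j (g * y * g⁻¹) := by
    rw [map_mul, map_mul, map_mul, map_mul, map_inv, map_inv, e2, e1]
    group
  have e4 := hfix i j hne' _ e3
  apply hy1
  calc y = g⁻¹ * (g * y * g⁻¹) * g := by group
    _ = 1 := by rw [e4]; group

/-- orthogonality excludes common values -/
theorem no_fix {n : ℕ} {H : Type*} [Group H] {h m : Fin n → H} (hh : Function.Bijective h)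
    (hm : Function.Bijective m) {L M : Fin n → Fin n → Fin n}
    (hO : Function.Injective fun x : Fin n × Fin n => (L x.1 x.2, M x.1 x.2))
    {β γ : H →* H} {μ ν : H → Fin n}
    (h1 : 4 * (univ.filter fun p : Fin n × Fin n =>
        L p.1 p.2 ≠ μ ((h p.1)⁻¹ * β (m p.2))).card < n ^ 2)
    (h2 : 4 * (univ.filter fun p : Fin n × Fin n =>
        M p.1 p.2 ≠ ν ((h p.1)⁻¹ * γ (m p.2))).card < n ^ 2) (z : H) (hz : β z = γ z) : z = 1 := by
  choose f hf using hh.2
  choose g hg using hm.2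
  set π : Fin n × Fin n → Fin n × Fin n := fun p => (f (β z * h p.1), g (z * m p.2)) with hπ
  have hinj : Function.Injective π := by
    intro p q e
    have e1 : f (β z * h p.1) = f (β z * h q.1) := congrArg Prod.fst e
    have e2 : g (z * m p.2) = g (z * m q.2) := congrArg Prod.snd e
    have e3 := congrArg h e1
    have e4 := congrArg m e2
    rw [hf, hf] at e3
    rw [hg, hg] at e4
    exact Prod.ext (hh.1 (mul_left_cancel e3)) (hm.1 (mul_left_cancel e4))
  set A := univ.filter fun p : Fin n × Fin n => L p.1 p.2 ≠ μ ((h p.1)⁻¹ * β (m p.2)) with hA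
  set B := univ.filter fun p : Fin n × Fin n => M p.1 p.2 ≠ ν ((h p.1)⁻¹ * γ (m p.2)) with hB
  have c1 : (univ.filter fun p => π p ∈ A).card ≤ A.card :=
    card_le_card_of_injOn π (fun p hp => by simpa using hp) hinj.injOn
  have c2 : (univ.filter fun p => π p ∈ B).card ≤ B.card :=
    card_le_card_of_injOn π (fun p hp => by simpa using hp) hinj.injOn
  obtain ⟨p, p1, p2, p3, p4⟩ : ∃ p, p ∉ A ∧ p ∉ B ∧ π p ∉ A ∧ π p ∉ B := by
    by_contra hcon
    push Not at hcon
    have hs : (univ : Finset (Fin n × Fin n)) ⊆ (A ∪ B) ∪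
        ((univ.filter fun p => π p ∈ A) ∪ (univ.filter fun p => π p ∈ B)) := by
      intro p _
      simp only [mem_union, mem_filter, mem_univ, true_and]
      have := hcon p
      tauto
    have t1 := card_le_card hs
    rw [card_univ, Fintype.card_prod, Fintype.card_fin] at t1
    have t2 := card_union_le (A ∪ B)
        ((univ.filter fun p => π p ∈ A) ∪ (univ.filter fun p => π p ∈ B))
    have t3 := card_union_le A B
    have t4 := card_union_le (univ.filter fun p => π p ∈ A) (univ.filter fun p => π p ∈ B)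
    have t5 : n ^ 2 = n * n := by ring
    rw [t5] at h1 h2
    omega
  simp only [hA, mem_filter, mem_univ, true_and, not_not] at p1 p3
  simp only [hB, mem_filter, mem_univ, true_and, not_not] at p2 p4
  have q1 : h (π p).1 = β z * h p.1 := hf _
  have q2 : m (π p).2 = z * m p.2 := hg _
  have e1 : L (π p).1 (π p).2 = L p.1 p.2 := by
    rw [p3, p1, q1, q2, map_mul]
    congr 1
    group
  have e2 : M (π p).1 (π p).2 = M p.1 p.2 := by
    rw [p4, p2, q1, q2, map_mul, ← hz]
    congr 1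
    group
  have e3 := hO (a₁ := π p) (a₂ := p) (Prod.ext e1 e2)
  rw [e3] at q2
  exact (mul_eq_right.1 q2.symm)

variable {n : ℕ}

theorem nb_U_le {L M : Fin n → Fin n → Fin n} (hL : Latin L) (hM : Latin M) (r : Fin n) :
    nb (U hL r) ≤ nb (P hL hM r) := by
  refine card_le_card fun p hp => ?_
  simp only [mem_filter, mem_univ, true_and] at hp ⊢
  intro hcon
  apply hp
  obtain ⟨w, hw⟩ := hcon
  exact ⟨w, congrArg Prod.fst hw⟩

theorem no_many {k : ℕ} (L : Fin k → Fin n → Fin n → Fin n) (hL : ∀ i, Latin (L i))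
    (hO : ∀ i j, i ≠ j →
      Function.Injective fun x : Fin n × Fin n => (L i x.1 x.2, L j x.1 x.2))
    (i : Fin k) (r c : Fin n) (hrow : ∀ j, 64 * nb (P (hL i) (hL j) r) < n ^ 2)
    (hcol : ∀ j, 64 * nb (P (hL i).T (hL j).T c) < n ^ 2) (p : ℕ) (hp : p.Prime) (hd : p ∣ n) :
    k < p ^ n.factorization p := by
  have hn : 0 < n := r.pos
  have h0 : 64 * nb (U (hL i) r) < n ^ 2 := by
    have := nb_U_le (hL i) (hL i) r
    have := hrow i
    omega
  obtain ⟨H, hH1, hH2, hHU⟩ := exists_group (U_inj (hL i) r) hn h0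
  have hH : ∀ g, g ∈ H ↔ n < 2 * N (U (hL i) r) g := by
    intro g
    refine ⟨fun hg => ?_, hH2 g⟩
    have := hH1 g hg
    omega
  have hfree := H_free (hL i) r (fun g hg => (hH g).1 hg)
  have hHc : Nat.card H = n := card_eq (U_inj (hL i) r) hn hHU
    (dvd_of_free H (MonoidHom.id _) hfree hn)
  have hreg := reg_of_free H (MonoidHom.id _) hfree hHc
  choose h0' hh1 hh2 using fun s => hreg c (U (hL i) r s c)
  choose m0 hm1 hm2 using fun y => hreg c y
  set h : Fin n → H := fun s => ⟨h0' s, hh1 s⟩ with hhd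
  set m : Fin n → H := fun y => ⟨m0 y, hm1 y⟩ with hmd
  have hh : ∀ s, (h s).1 c = U (hL i) r s c := hh2
  have hm : ∀ y, (m y).1 c = y := hm2
  have := Fintype.ofFinite H
  have hhb : Function.Bijective h := by
    rw [Fintype.bijective_iff_injective_and_card]
    refine ⟨?_, by rw [Fintype.card_fin, ← Nat.card_eq_fintype_card, hHc]⟩
    intro s t e
    apply U_sharp (hL i) r (c := c)
    rw [← hh, ← hh, e]
  have hmb : Function.Bijective m := by
    rw [Fintype.bijective_iff_injective_and_card]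
    refine ⟨?_, by rw [Fintype.card_fin, ← Nat.card_eq_fintype_card, hHc]⟩
    intro s t e
    rw [← hm s, ← hm t, e]
  choose β μ hβ hμ using fun j =>
    model (hL i) (hL j) r c (hrow j) (hcol j) H hH h m hh hm hHc
  have := mann_bound β hβ (fun i' j' hne z hz => no_fix hhb hmb (hO i' j' hne) (hμ i') (hμ j') z hz)
    p hp (by rwa [hHc])
  rwa [hHc] at this

/-- a violation -/
def Viol (L M : Fin n → Fin n → Fin n) (r₁ r₂ r₃ r₄ c₁ c₂ c₃ c₄ : Fin n) : Prop :=
  L r₁ c₁ = L r₂ c₂ ∧ L r₃ c₁ = L r₄ c₂ ∧ M r₁ c₃ = M r₂ c₄ ∧ M r₃ c₃ ≠ M r₄ c₄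

/-- the number of violations with first row `r` -/
noncomputable def V (L M : Fin n → Fin n → Fin n) (r : Fin n) : ℕ :=
  Nat.card {x : (Fin 3 → Fin n) × (Fin 4 → Fin n) //
    Viol L M r (x.1 0) (x.1 1) (x.1 2) (x.2 0) (x.2 1) (x.2 2) (x.2 3)}

theorem nb_le {L M : Fin n → Fin n → Fin n} (hL : Latin L) (hM : Latin M) (r : Fin n) :
    nb (P hL hM r) * n ≤ V L L r + V L M r := by
  have hex : ∀ q : {q : (Fin n × Fin n) × Fin n //
      ¬ InS (P hL hM r) (P hL hM r q.1.1 * P hL hM r q.1.2)}, ∃ w y,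
      U hL r w q.1.2 = U hL r q.1.1.1 (U hL r q.1.1.2 q.1.2) ∧
      (U hL r w y ≠ U hL r q.1.1.1 (U hL r q.1.1.2 y) ∨
      U hM r w y ≠ U hM r q.1.1.1 (U hM r q.1.1.2 y)) := by
    rintro ⟨⟨⟨s, t⟩, x⟩, hq⟩
    obtain ⟨w, hw⟩ := U_ex hL r x (U hL r s (U hL r t x))
    by_contra hcon
    push Not at hcon
    apply hq
    refine ⟨w, Prod.ext ?_ ?_⟩
    · ext y
      change (U hL r w y : ℕ) = U hL r s (U hL r t y)
      rw [(hcon w y hw).1]
    · ext y
      change (U hM r w y : ℕ) = U hM r s (U hM r t y)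
      rw [(hcon w y hw).2]
  choose W Y hW hY using hex
  have hlt : ∀ q : {q : (Fin n × Fin n) × Fin n //
      ¬ InS (P hL hM r) (P hL hM r q.1.1 * P hL hM r q.1.2)}, L q.1.1.2 (U hL r q.1.1.2 q.1.2) =
      L (W q) (U hL r q.1.1.1 (U hL r q.1.1.2 q.1.2)) := by
    intro q
    rw [U_spec hL, ← hW, U_spec hL]
  have e1 : Nat.card {q : (Fin n × Fin n) × Fin n //
      ¬ InS (P hL hM r) (P hL hM r q.1.1 * P hL hM r q.1.2)} = nb (P hL hM r) * n := by
    rw [Nat.card_eq_fintype_card, Fintype.card_subtype, nb]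
    have : (univ.filter fun q : (Fin n × Fin n) × Fin n =>
        ¬ InS (P hL hM r) (P hL hM r q.1.1 * P hL hM r q.1.2)) =
        (univ.filter fun p : Fin n × Fin n => ¬ InS (P hL hM r) (P hL hM r p.1 * P hL hM r p.2)) ×ˢ
          (univ : Finset (Fin n)) := by
      ext q
      simp
    rw [this, card_product, card_univ, Fintype.card_fin]
  have e2 : V L L r + V L M r = Nat.card ({x : (Fin 3 → Fin n) × (Fin 4 → Fin n) //
      Viol L L r (x.1 0) (x.1 1) (x.1 2) (x.2 0) (x.2 1) (x.2 2) (x.2 3)} ⊕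
      {x : (Fin 3 → Fin n) × (Fin 4 → Fin n) //
      Viol L M r (x.1 0) (x.1 1) (x.1 2) (x.2 0) (x.2 1) (x.2 2) (x.2 3)}) := by
    rw [Nat.card_sum]
    rfl
  rw [e2, ← e1]
  refine Nat.card_le_card_of_injective (fun q =>
    if h : U hL r (W q) (Y q) ≠ U hL r q.1.1.1 (U hL r q.1.1.2 (Y q)) then
      Sum.inl ⟨(![q.1.1.1, q.1.1.2, W q], ![U hL r q.1.1.2 q.1.2,
        U hL r q.1.1.1 (U hL r q.1.1.2 q.1.2), U hL r q.1.1.2 (Y q),
        U hL r q.1.1.1 (U hL r q.1.1.2 (Y q))]), ?_⟩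
    else
      Sum.inr ⟨(![q.1.1.1, q.1.1.2, W q], ![U hL r q.1.1.2 q.1.2,
        U hL r q.1.1.1 (U hL r q.1.1.2 q.1.2), U hM r q.1.1.2 (Y q),
        U hM r q.1.1.1 (U hM r q.1.1.2 (Y q))]), ?_⟩) ?_
  · refine ⟨(U_spec hL r _ _).symm, hlt q, (U_spec hL r _ _).symm, ?_⟩
    change L q.1.1.2 (U hL r q.1.1.2 (Y q)) ≠ L (W q) (U hL r q.1.1.1 (U hL r q.1.1.2 (Y q)))
    rw [U_spec hL]
    intro h'
    exact h ((U_iff hL r _ _ _).2 h'.symm)
  · refine ⟨(U_spec hL r _ _).symm, hlt q, (U_spec hM r _ _).symm, ?_⟩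
    change M q.1.1.2 (U hM r q.1.1.2 (Y q)) ≠ M (W q) (U hM r q.1.1.1 (U hM r q.1.1.2 (Y q)))
    rw [U_spec hM]
    intro h'
    rcases hY q with h2 | h2
    · exact h h2
    · exact h2 ((U_iff hM r _ _ _).2 h'.symm)
  · intro q q' e
    have main : ∀ (v v' : Fin 3 → Fin n) (u u' : Fin 4 → Fin n),
        v 0 = q.1.1.1 → v 1 = q.1.1.2 → u 0 = U hL r q.1.1.2 q.1.2 →
        v' 0 = q'.1.1.1 → v' 1 = q'.1.1.2 → u' 0 = U hL r q'.1.1.2 q'.1.2 → v = v' → u = u' →
        q = q' := by
      rintro v _ u _ a1 a2 a3 b1 b2 b3 rfl rfl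
      have c1 : q.1.1.1 = q'.1.1.1 := a1.symm.trans b1
      have c2 : q.1.1.2 = q'.1.1.2 := a2.symm.trans b2
      have c3 := a3.symm.trans b3
      rw [c2] at c3
      have c4 := (U hL r q'.1.1.2).injective c3
      exact Subtype.ext (Prod.ext (Prod.ext c1 c2) c4)
    simp only at e
    split_ifs at e with h1 h2 h2
    · have e' := congrArg Subtype.val (Sum.inl_injective e)
      simp only [Prod.mk.injEq] at e'
      exact main _ _ _ _ rfl rfl rfl rfl rfl rfl e'.1 e'.2
    · have e' := congrArg Subtype.val (Sum.inr_injective e)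
      simp only [Prod.mk.injEq] at e'
      exact main _ _ _ _ rfl rfl rfl rfl rfl rfl e'.1 e'.2

/-- the theorem -/
theorem many {k : ℕ} (L : Fin k → Fin n → Fin n → Fin n) (hL : ∀ i, Latin (L i))
    (hO : ∀ i j, i ≠ j →
      Function.Injective fun x : Fin n × Fin n => (L i x.1 x.2, L j x.1 x.2))
    (p : ℕ) (hp : p.Prime) (hd : p ∣ n) (hk : p ^ n.factorization p ≤ k) (i : Fin k) :
    (∀ r, ∃ j, n ^ 3 ≤ 128 * V (L i) (L j) r) ∨
    (∀ c, ∃ j, n ^ 3 ≤ 128 * V (fun c r => L i r c) (fun c r => L j r c) c) := by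
  by_contra hcon
  push Not at hcon
  obtain ⟨⟨r, hr⟩, ⟨c, hc⟩⟩ := hcon
  have hn : 0 < n := r.pos
  have e : n ^ 3 = n ^ 2 * n := by ring
  have h1 := no_many L hL hO i r c (fun j => by
    have a := nb_le (hL i) (hL j) r
    have b := hr i
    have d := hr j
    rw [e] at b d
    have : 64 * nb (P (hL i) (hL j) r) * n < n ^ 2 * n := by
      rw [mul_assoc]
      omega
    exact Nat.lt_of_mul_lt_mul_right this) (fun j => by
    have a := nb_le (hL i).T (hL j).T c
    have b := hc i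
    have d := hc j
    rw [e] at b d
    have : 64 * nb (P (hL i).T (hL j).T c) * n < n ^ 2 * n := by
      rw [mul_assoc]
      omega
    exact Nat.lt_of_mul_lt_mul_right this) p hp hd
  omega

end Pool.Agent.N345.Mol
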