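import Pool.Agent.N345.Mol.Near
import Pool.Agent.N345.Sym.AxGroup

set_option autoImplicit false
set_option linter.unusedSectionVars false

/-!
# Pairs of latin squares which almost have a common group of translations
-/

namespace Pool.Agent.N345.Mol

open Finset
open scoped Classical

variable {n : ℕ}

/-- latin squares -/
structure Latin (L : Fin n → Fin n → Fin n) : Prop where
  row : ∀ r, Function.Bijective (L r)
  col : ∀ c, Function.Bijective fun r => L r c

theorem Latin.T {L : Fin n → Fin n → Fin n} (h : Latin L) : Latin (fun c r => L r c) :=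
  ⟨h.col, h.row⟩

/-- the permutation of the columns which takes row `r` to row `s` -/
noncomputable def U {L : Fin n → Fin n → Fin n} (h : Latin L) (r s : Fin n) :
    Equiv.Perm (Fin n) :=
  (Equiv.ofBijective (L r) (h.row r)).trans (Equiv.ofBijective (L s) (h.row s)).symm

theorem U_spec {L : Fin n → Fin n → Fin n} (h : Latin L) (r s c : Fin n) :
    L s (U h r s c) = L r c := by
  have h1 : ∀ d, L s ((Equiv.ofBijective (L s) (h.row s)).symm d) = d := fun d =>
    (Equiv.ofBijective (L s) (h.row s)).apply_symm_apply d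
  exact h1 _

theorem U_iff {L : Fin n → Fin n → Fin n} (h : Latin L) (r s c d : Fin n) :
    U h r s c = d ↔ L s d = L r c := by
  constructor
  · rintro rfl
    exact U_spec h r s c
  · intro e
    apply (h.row s).1
    rw [U_spec h, e]

theorem U_sharp {L : Fin n → Fin n → Fin n} (h : Latin L) (r : Fin n) {s t c : Fin n}
    (e : U h r s c = U h r t c) : s = t := by
  have h1 := U_spec h r s c
  have h2 := U_spec h r t c
  rw [e] at h1
  exact (h.col _).1 (h1.trans h2.symm)

theorem U_ex {L : Fin n → Fin n → Fin n} (h : Latin L) (r c d : Fin n) :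
    ∃ s, U h r s c = d := by
  obtain ⟨s, hs⟩ := (h.col d).2 (L r c)
  exact ⟨s, (U_iff h r s c d).2 hs⟩

theorem U_inj {L : Fin n → Fin n → Fin n} (h : Latin L) (r : Fin n) :
    Function.Injective (U h r) := by
  intro s t e
  exact U_sharp h r (c := r) (by rw [e])

/-- the pairs of row permutations -/
noncomputable def P {L M : Fin n → Fin n → Fin n} (hL : Latin L) (hM : Latin M) (r s : Fin n) :
    Equiv.Perm (Fin n) × Equiv.Perm (Fin n) := (U hL r s, U hM r s)

theorem P_inj {L M : Fin n → Fin n → Fin n} (hL : Latin L) (hM : Latin M) (r : Fin n) :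
    Function.Injective (P hL hM r) := by
  intro s t e
  exact U_inj hL r (congrArg Prod.fst e)

/-- semiregular groups -/
theorem dvd_of_free {G : Type*} [Group G] (Γ : Subgroup G)
    (f : G →* Equiv.Perm (Fin n)) (hf : ∀ g ∈ Γ, ∀ x, f g x = x → g = 1) (hn : 0 < n) :
    Nat.card Γ ∣ n := by
  have hinj : ∀ g ∈ Γ, ∀ h ∈ Γ, f g = f h → g = h := by
    intro g hg h hh e
    have h1 := hf (h⁻¹ * g) (Γ.mul_mem (Γ.inv_mem hh) hg) ⟨0, hn⟩ (by
      rw [map_mul, map_inv, e]; simp)
    exact (inv_mul_eq_one.1 h1).symm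
  have e1 : Nat.card Γ = Nat.card (Γ.map f) := by
    refine Nat.card_eq_of_bijective (fun g : Γ => (⟨f g.1, ⟨g.1, g.2, rfl⟩⟩ : Γ.map f)) ⟨?_, ?_⟩
    · intro g h e
      exact Subtype.ext (hinj _ g.2 _ h.2 (congrArg Subtype.val e))
    · rintro ⟨h, g, hg, rfl⟩
      exact ⟨⟨g, hg⟩, rfl⟩
  rw [e1]
  have := Pool.Agent.N345.Sym.card_dvd_free (Γ.map f) univ (fun _ _ _ _ => mem_univ _) (by
    rintro σ ⟨g, hg, rfl⟩ hne x _ hx
    apply hne
    rw [hf g hg x hx, map_one])
  rwa [card_univ, Fintype.card_fin] at this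

theorem reg_of_free {G : Type*} [Group G] [Finite G] (Γ : Subgroup G)
    (f : G →* Equiv.Perm (Fin n)) (hf : ∀ g ∈ Γ, ∀ x, f g x = x → g = 1)
    (hc : Nat.card Γ = n) (x y : Fin n) : ∃ g ∈ Γ, f g x = y := by
  have := Fintype.ofFinite G
  have hinj : Function.Injective (fun g : Γ => f g.1 x) := by
    intro g h e
    have e' : f g.1 x = f h.1 x := e
    have h1 := hf (h.1⁻¹ * g.1) (Γ.mul_mem (Γ.inv_mem h.2) g.2) x (by
      rw [map_mul, map_inv, Equiv.Perm.mul_apply, e']; simp)
    exact Subtype.ext (inv_mul_eq_one.1 h1).symm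
  have hbij : Function.Bijective (fun g : Γ => f g.1 x) := by
    rw [Fintype.bijective_iff_injective_and_card]
    refine ⟨hinj, ?_⟩
    rw [← Nat.card_eq_fintype_card, hc, Fintype.card_fin]
  obtain ⟨g, hg⟩ := hbij.2 y
  exact ⟨g.1, g.2, hg⟩

/-- three good rows -/
theorem exists_good {R : Fin n → Prop} (hR : 8 * (univ.filter fun s => ¬ R s).card < n)
    (σ τ : Equiv.Perm (Fin n)) : ∃ s, R s ∧ R (σ s) ∧ R (τ s) := by
  by_contra hcon
  push Not at hcon
  have h1 : (univ : Finset (Fin n)) ⊆ (univ.filter fun s => ¬ R s) ∪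
      ((univ.filter fun s => ¬ R (σ s)) ∪ (univ.filter fun s => ¬ R (τ s))) := by
    intro s _
    simp only [mem_union, mem_filter, mem_univ, true_and]
    by_cases a : R s
    · by_cases b : R (σ s)
      · exact Or.inr (Or.inr (hcon s a b))
      · exact Or.inr (Or.inl b)
    · exact Or.inl a
  have h2 : ∀ π : Equiv.Perm (Fin n), (univ.filter fun s => ¬ R (π s)).card ≤
      (univ.filter fun s => ¬ R s).card := by
    intro π
    refine card_le_card_of_injOn π ?_ (π.injective.injOn)
    intro s hs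
    simpa using hs
  have h3 := card_le_card h1
  rw [card_univ, Fintype.card_fin] at h3
  have h4 := card_union_le (univ.filter fun s => ¬ R s)
      ((univ.filter fun s => ¬ R (σ s)) ∪ (univ.filter fun s => ¬ R (τ s)))
  have h5 := card_union_le (univ.filter fun s => ¬ R (σ s)) (univ.filter fun s => ¬ R (τ s))
  have h6 := h2 σ
  have h7 := h2 τ
  omega

/-- the free property of the group of a latin square -/
theorem H_free {L : Fin n → Fin n → Fin n} (hL : Latin L) (r : Fin n)
    {H : Subgroup (Equiv.Perm (Fin n))} (hH : ∀ g, g ∈ H → n < 2 * N (U hL r) g) :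
    ∀ g ∈ H, ∀ x, g x = x → g = 1 := by
  intro g hg x hx
  have h1 := hH g hg
  have h2 : 0 < N (U hL r) g := by omega
  obtain ⟨t, ht⟩ := card_pos.1 h2
  rw [mem_filter] at ht
  obtain ⟨w, hw⟩ := ht.2
  have h3 : U hL r w ((U hL r t)⁻¹ x) = U hL r t ((U hL r t)⁻¹ x) := by
    rw [hw, Equiv.Perm.mul_apply]
    simp [hx]
  have h4 := U_sharp hL r h3
  subst h4
  have h5 : g * U hL r w = 1 * U hL r w := by rw [one_mul]; exact hw.symm
  exact mul_right_cancel h5

/-- the graph of an injective endomorphism -/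
theorem graph_hom {G K : Type*} [Group G] [Group K] (B : Subgroup (G × K))
    (h1 : ∀ x, ∃ g ∈ B, g.1 = x) (h2 : ∀ g ∈ B, g.1 = 1 → g = 1) :
    ∃ β : G →* K, ∀ x, (x, β x) ∈ B := by
  choose f hf hf1 using h1
  have hu : ∀ g ∈ B, ∀ h ∈ B, g.1 = h.1 → g = h := by
    intro g hg h hh e
    have := h2 (h⁻¹ * g) (B.mul_mem (B.inv_mem hh) hg) (by
      rw [Prod.fst_mul, Prod.fst_inv, e]; simp)
    exact (inv_mul_eq_one.1 this).symm
  refine ⟨{ toFun := fun x => (f x).2
            map_one' := ?_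
            map_mul' := ?_ }, ?_⟩
  · have := hu (f 1) (hf 1) 1 B.one_mem (hf1 1)
    rw [this]
    rfl
  · intro x y
    have := hu (f (x * y)) (hf _) (f x * f y) (B.mul_mem (hf x) (hf y)) (by
      rw [Prod.fst_mul, hf1, hf1, hf1])
    rw [this]
    rfl
  · intro x
    have e : (x, (f x).2) = f x := Prod.ext (hf1 x).symm rfl
    change (x, (f x).2) ∈ B
    rw [e]
    exact hf x

/-- the model of the second square of a pair -/
theorem model {L M : Fin n → Fin n → Fin n} (hL : Latin L) (hM : Latin M) (r c : Fin n)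
    (hrow : 64 * nb (P hL hM r) < n ^ 2) (hcol : 64 * nb (P hL.T hM.T c) < n ^ 2)
    (H : Subgroup (Equiv.Perm (Fin n))) (hH : ∀ g, g ∈ H ↔ n < 2 * N (U hL r) g)
    (h m : Fin n → H) (hh : ∀ s, (h s).1 c = U hL r s c) (hm : ∀ y, (m y).1 c = y)
    (hHc : Nat.card H = n) :
    ∃ (β : H →* H) (μ : H → Fin n), Function.Injective β ∧
      4 * (univ.filter fun p : Fin n × Fin n =>
        M p.1 p.2 ≠ μ ((h p.1)⁻¹ * β (m p.2))).card < n ^ 2 := by
  have hn : 0 < n := r.pos
  obtain ⟨Γ, hΓ, -, hΓR⟩ := exists_group (P_inj hL hM r) hn hrow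
  have free1 : ∀ g ∈ Γ, ∀ x, (MonoidHom.fst _ _ g : Equiv.Perm (Fin n)) x = x → g = 1 := by
    intro g hg x hx
    obtain ⟨t, w, hw⟩ := quot (u := P hL hM r) hn hΓ hg
    have e1 : U hL r w = g.1 * U hL r t := congrArg Prod.fst hw
    have h3 : U hL r w ((U hL r t)⁻¹ x) = U hL r t ((U hL r t)⁻¹ x) := by
      rw [e1, Equiv.Perm.mul_apply]
      have : g.1 x = x := hx
      simp [this]
    have h4 := U_sharp hL r h3
    subst h4
    have h5 : g * P hL hM r w = 1 * P hL hM r w := by rw [one_mul]; exact hw.symm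
    exact mul_right_cancel h5
  have free2 : ∀ g ∈ Γ, ∀ x, (MonoidHom.snd _ _ g : Equiv.Perm (Fin n)) x = x → g = 1 := by
    intro g hg x hx
    obtain ⟨t, w, hw⟩ := quot (u := P hL hM r) hn hΓ hg
    have e1 : U hM r w = g.2 * U hM r t := congrArg Prod.snd hw
    have h3 : U hM r w ((U hM r t)⁻¹ x) = U hM r t ((U hM r t)⁻¹ x) := by
      rw [e1, Equiv.Perm.mul_apply]
      have : g.2 x = x := hx
      simp [this]
    have h4 := U_sharp hM r h3
    subst h4
    have h5 : g * P hL hM r w = 1 * P hL hM r w := by rw [one_mul]; exact hw.symm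
    exact mul_right_cancel h5
  have hΓc : Nat.card Γ = n := card_eq (P_inj hL hM r) hn hΓR (dvd_of_free Γ _ free1 hn)
  have reg1 := reg_of_free Γ _ free1 hΓc
  have reg2 := reg_of_free Γ _ free2 hΓc
  have hHf := H_free hL r (fun g hg => (hH g).1 hg)
  have hHeq : ∀ g ∈ H, ∀ g' ∈ H, ∀ x, g x = g' x → g = g' := by
    intro g hg g' hg' x e
    have := hHf (g'⁻¹ * g) (H.mul_mem (H.inv_mem hg') hg) x (by
      rw [Equiv.Perm.mul_apply, e]; simp)
    exact (inv_mul_eq_one.1 this).symm
  -- the first coordinates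
  have hfst : ∀ g ∈ Γ, g.1 ∈ H := by
    intro g hg
    rw [hH]
    have h1 := hΓ g hg
    have h2 : N (P hL hM r) g ≤ N (U hL r) g.1 := by
      refine card_le_card fun t ht => ?_
      simp only [mem_filter, mem_univ, true_and] at ht ⊢
      obtain ⟨w, hw⟩ := ht
      exact ⟨w, congrArg Prod.fst hw⟩
    omega
  have hex : ∀ k : H, ∃ g ∈ Γ, g.1 = k.1 := by
    intro k
    obtain ⟨g, hg, e⟩ := reg1 c (k.1 c)
    exact ⟨g, hg, hHeq _ (hfst g hg) _ k.2 c e⟩
  have hΓeq1 : ∀ g ∈ Γ, ∀ g' ∈ Γ, g.1 = g'.1 → g = g' := by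
    intro g hg g' hg' e
    have := free1 (g'⁻¹ * g) (Γ.mul_mem (Γ.inv_mem hg') hg) c (by
      change (g'⁻¹ * g).1 c = c
      rw [Prod.fst_mul, Prod.fst_inv, e]; simp)
    exact (inv_mul_eq_one.1 this).symm
  have hΓeq2 : ∀ g ∈ Γ, ∀ g' ∈ Γ, ∀ x, g.2 x = g'.2 x → g = g' := by
    intro g hg g' hg' x e
    have := free2 (g'⁻¹ * g) (Γ.mul_mem (Γ.inv_mem hg') hg) x (by
      change (g'⁻¹ * g).2 x = x
      rw [Prod.snd_mul, Prod.snd_inv, Equiv.Perm.mul_apply, e]; simp)
    exact (inv_mul_eq_one.1 this).symm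
  choose G0 hG0 hG1 using hex
  obtain ⟨G, hG, hGf⟩ : ∃ G : H →* Equiv.Perm (Fin n) × Equiv.Perm (Fin n),
      (∀ k, G k ∈ Γ) ∧ ∀ k, (G k).1 = k.1 := by
    refine ⟨{ toFun := G0, map_one' := ?_, map_mul' := ?_ }, hG0, hG1⟩
    · exact hΓeq1 _ (hG0 1) _ Γ.one_mem (by rw [hG1]; rfl)
    · intro x y
      exact hΓeq1 _ (hG0 _) _ (Γ.mul_mem (hG0 x) (hG0 y)) (by
        rw [Prod.fst_mul, hG1, hG1, hG1]; rfl)
  have hGof : ∀ g ∈ Γ, ∀ k : H, g.1 = k.1 → G k = g := fun g hg k e =>
    hΓeq1 _ (hG k) _ hg (by rw [hGf, e])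
  -- good rows
  have hR1 : ∀ s, P hL hM r s ∈ Γ → (h s).1 = U hL r s := by
    intro s hs
    exact hHeq _ (h s).2 _ (hfst _ hs) c (hh s)
  have hR2 : ∀ s, P hL hM r s ∈ Γ → G (h s) = P hL hM r s := by
    intro s hs
    exact hGof _ hs _ (hR1 s hs).symm
  -- the columns
  have hex2 : ∀ y, ∃ k : H, (G k).2 c = y := by
    intro y
    obtain ⟨g, hg, e⟩ := reg2 c y
    refine ⟨⟨g.1, hfst g hg⟩, ?_⟩
    rw [hGof g hg _ rfl]
    exact e
  choose q hq using hex2
  have hA : ∀ y s, P hL hM r s ∈ Γ → P hL hM r (U hL.T c y s) ∈ Γ →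
      h (U hL.T c y s) = m y * h s := by
    intro y s h1 h2
    set s' := U hL.T c y s with hs'
    have e1 : L s' y = L s c := U_spec hL.T c y s
    set x := (U hL r s)⁻¹ c with hx
    have hx1 : U hL r s x = c := by simp [hx]
    have e2 : L s c = L r x := by
      have := U_spec hL r s x
      rw [hx1] at this
      exact this
    have e3 : U hL r s' x = y := (U_iff hL r s' x y).2 (e1.trans e2)
    apply Subtype.ext
    refine hHeq _ (h s').2 _ (m y * h s).2 x ?_
    rw [hR1 s' h2, e3]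
    change y = ((m y).1 * (h s).1) x
    rw [Equiv.Perm.mul_apply, hR1 s h1, hx1, hm]
  have hB : ∀ y s, P hL hM r s ∈ Γ → P hL hM r (U hM.T c y s) ∈ Γ →
      h (U hM.T c y s) = q y * h s := by
    intro y s h1 h2
    set s' := U hM.T c y s with hs'
    have e1 : M s' y = M s c := U_spec hM.T c y s
    set x := (U hM r s)⁻¹ c with hx
    have hx1 : U hM r s x = c := by simp [hx]
    have e2 : M s c = M r x := by
      have := U_spec hM r s x
      rw [hx1] at this
      exact this
    have e3 : U hM r s' x = y := (U_iff hM r s' x y).2 (e1.trans e2)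
    have e4 : G (h s') = G (q y) * G (h s) := by
      refine hΓeq2 _ (hG _) _ (Γ.mul_mem (hG _) (hG _)) x ?_
      rw [hR2 s' h2, hR2 s h1]
      change U hM r s' x = ((G (q y)).2 * U hM r s) x
      rw [Equiv.Perm.mul_apply, hx1, hq, e3]
    rw [← map_mul] at e4
    apply Subtype.ext
    rw [← hGf, ← hGf, e4]
  have hminj : Function.Injective m := by
    intro y z e
    rw [← hm y, ← hm z, e]
  have hqinj : Function.Injective q := by
    intro y z e
    rw [← hq y, ← hq z, e]
  set S : Fin n → H × H := fun y => (m y, q y) with hS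
  have hSinj : Function.Injective S := fun y z e => hminj (congrArg Prod.fst e)
  have hnb : nb S ≤ nb (P hL.T hM.T c) := by
    refine card_le_card fun p hp => ?_
    simp only [mem_filter, mem_univ, true_and] at hp ⊢
    intro hcon
    apply hp
    obtain ⟨w, hw⟩ := hcon
    refine ⟨w, ?_⟩
    have w1 : U hL.T c w = U hL.T c p.1 * U hL.T c p.2 := congrArg Prod.fst hw
    have w2 : U hM.T c w = U hM.T c p.1 * U hM.T c p.2 := congrArg Prod.snd hw
    refine Prod.ext ?_ ?_
    · change m w = m p.1 * m p.2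
      obtain ⟨s, s1, s2, s3⟩ := exists_good (R := fun s => P hL hM r s ∈ Γ) hΓR
        (U hL.T c p.2) (U hL.T c p.1 * U hL.T c p.2)
      have a1 := hA w s s1 (by rw [w1]; exact s3)
      have a2 := hA p.2 s s1 s2
      have a3 := hA p.1 (U hL.T c p.2 s) s2 s3
      rw [w1, Equiv.Perm.mul_apply, a3, a2, ← mul_assoc] at a1
      exact (mul_right_cancel a1).symm
    · change q w = q p.1 * q p.2
      obtain ⟨s, s1, s2, s3⟩ := exists_good (R := fun s => P hL hM r s ∈ Γ) hΓR
        (U hM.T c p.2) (U hM.T c p.1 * U hM.T c p.2)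
      have a1 := hB w s s1 (by rw [w2]; exact s3)
      have a2 := hB p.2 s s1 s2
      have a3 := hB p.1 (U hM.T c p.2 s) s2 s3
      rw [w2, Equiv.Perm.mul_apply, a3, a2, ← mul_assoc] at a1
      exact (mul_right_cancel a1).symm
  obtain ⟨B, hBg, -, hBS⟩ := exists_group hSinj hn (by omega : 64 * nb S < n ^ 2)
  have b1 : ∀ g ∈ B, g.1 = 1 → g = 1 := by
    intro g hg e
    obtain ⟨t, w, hw⟩ := quot (u := S) hn hBg hg
    have e1 : m w = g.1 * m t := congrArg Prod.fst hw
    rw [e, one_mul] at e1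
    have e2 := hminj e1
    subst e2
    have h5 : g * S w = 1 * S w := by rw [one_mul]; exact hw.symm
    exact mul_right_cancel h5
  have b2 : ∀ g ∈ B, g.2 = 1 → g = 1 := by
    intro g hg e
    obtain ⟨t, w, hw⟩ := quot (u := S) hn hBg hg
    have e1 : q w = g.2 * q t := congrArg Prod.snd hw
    rw [e, one_mul] at e1
    have e2 := hqinj e1
    subst e2
    have h5 : g * S w = 1 * S w := by rw [one_mul]; exact hw.symm
    exact mul_right_cancel h5
  have hfB : Function.Injective ((MonoidHom.fst H H).comp B.subtype) := by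
    rw [injective_iff_map_eq_one]
    intro g hg
    exact Subtype.ext (b1 g.1 g.2 hg)
  have hBc : Nat.card B = n := by
    refine card_eq hSinj hn hBS ?_
    have := Subgroup.card_dvd_of_injective _ hfB
    rwa [hHc] at this
  have hsurj : ∀ x : H, ∃ g ∈ B, g.1 = x := by
    have := Fintype.ofFinite H
    have hbij : Function.Bijective ((MonoidHom.fst H H).comp B.subtype) := by
      rw [Fintype.bijective_iff_injective_and_card]
      refine ⟨hfB, ?_⟩
      rw [← Nat.card_eq_fintype_card, ← Nat.card_eq_fintype_card, hBc, hHc]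
    intro x
    obtain ⟨g, hg⟩ := hbij.2 x
    exact ⟨g.1, g.2, hg⟩
  obtain ⟨β, hβ⟩ := graph_hom B hsurj b1
  have hβS : ∀ y, S y ∈ B → β (m y) = q y := by
    intro y hy
    have e := b1 ((S y)⁻¹ * (m y, β (m y))) (B.mul_mem (B.inv_mem hy) (hβ _)) (by simp [hS])
    have e2 := inv_mul_eq_one.1 e
    exact (congrArg Prod.snd e2).symm
  refine ⟨β, fun k => M r ((G k).2 c), ?_, ?_⟩
  · rw [injective_iff_map_eq_one]
    intro x hx
    exact congrArg Prod.fst (b2 (x, β x) (hβ x) hx)
  · have key : ∀ s y, P hL hM r s ∈ Γ → S y ∈ B →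
        M s y = M r ((G ((h s)⁻¹ * β (m y))).2 c) := by
      intro s y h1 h2
      set x := (U hM r s)⁻¹ y with hx
      have hx1 : U hM r s x = y := by simp [hx]
      have e1 : M s y = M r x := by
        have := U_spec hM r s x
        rwa [hx1] at this
      rw [e1, hβS y h2, map_mul, map_inv, hR2 s h1]
      congr 1
      change x = ((U hM r s)⁻¹ * (G (q y)).2) c
      rw [Equiv.Perm.mul_apply, hq]
    have hsub : (univ.filter fun p : Fin n × Fin n =>
        M p.1 p.2 ≠ M r ((G ((h p.1)⁻¹ * β (m p.2))).2 c)) ⊆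
        ((univ.filter fun s => P hL hM r s ∉ Γ) ×ˢ (univ : Finset (Fin n))) ∪
        ((univ : Finset (Fin n)) ×ˢ (univ.filter fun y => S y ∉ B)) := by
      intro p hp
      simp only [mem_filter, mem_univ, true_and, mem_union, mem_product, and_true] at hp ⊢
      by_contra hcon
      push Not at hcon
      exact hp (key p.1 p.2 hcon.1 hcon.2)
    have h1 := (card_le_card hsub).trans (card_union_le _ _)
    rw [card_product, card_product, card_univ, Fintype.card_fin] at h1
    have h2 : 8 * ((univ.filter fun s => P hL hM r s ∉ Γ).card * n) < n * n := by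
      rw [← mul_assoc]
      exact Nat.mul_lt_mul_of_pos_right hΓR hn
    have h3 : 8 * (n * (univ.filter fun y => S y ∉ B).card) < n * n := by
      calc 8 * (n * (univ.filter fun y => S y ∉ B).card)
          = n * (8 * (univ.filter fun y => S y ∉ B).card) := by ring
        _ < n * n := Nat.mul_lt_mul_of_pos_left hBS hn
    have h4 : n ^ 2 = n * n := by ring
    rw [h4]
    change 4 * (univ.filter fun p : Fin n × Fin n =>
        M p.1 p.2 ≠ M r ((G ((h p.1)⁻¹ * β (m p.2))).2 c)).card < n * n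
    omega

end Pool.Agent.N345.Mol
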